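import Pool.Agent.Lib_helper74.Iso.Arith

/-!
# Free groups of isometries of `ℚ³`: the action on `ℚ³`
-/

set_option autoImplicit false

open Quaternion

namespace Pool.Agent.Lib_helper74.Iso

/-- The Euclidean distance on `ℚ³`. -/
noncomputable def dist3 (z w : Fin 3 → ℚ) : ℝ :=
  Real.sqrt (∑ i, ((z i - w i : ℚ) : ℝ) ^ 2)

/-- The isometry group of `ℚ³`: all the bijections of `ℚ³` preserving the Euclidean distance. -/
def Isom3 : Subgroup (Equiv.Perm (Fin 3 → ℚ)) where
  carrier := {g | ∀ z w, dist3 (g z) (g w) = dist3 z w}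
  mul_mem' := by
    intro g h hg hh z w
    rw [Equiv.Perm.mul_apply, Equiv.Perm.mul_apply, hg, hh]
  one_mem' := by
    intro z w
    rfl
  inv_mem' := by
    intro g hg z w
    have h := hg (g⁻¹ z) (g⁻¹ w)
    have h1 : ∀ u, g (g⁻¹ u) = u := fun u => g.apply_symm_apply u
    rw [h1, h1] at h
    exact h.symm

/-- The pure quaternion of a vector. -/
def pq (z : Fin 3 → ℚ) : ℍ[ℚ] := ⟨0, z 0, z 1, z 2⟩

/-- The vector of a quaternion. -/
def qv (q : ℍ[ℚ]) : Fin 3 → ℚ := ![q.imI, q.imJ, q.imK]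

/-- The isometry of a letter. -/
def st (x y s : ℤ) (l : Ltr) (z : Fin 3 → ℚ) : Fin 3 → ℚ :=
  qv ((((nn x y s : ℤ) : ℚ)⁻¹) • (qa ℚ x y s l * pq z * star (qa ℚ x y s l)) + vU ℚ x y l)

/-- The inverse letter. -/
def il (l : Ltr) : Ltr := (l.1, !l.2)

lemma sg_il (l : Ltr) : sg (il l) = - sg l := by
  unfold sg il
  cases l.2 <;> simp

lemma sz_il (l : Ltr) : sz (il l) = sz l := rfl

lemma nn_pos (x y s : ℤ) : 0 < nn x y s := by
  unfold nn
  positivity

lemma pq_st (x y s : ℤ) (l : Ltr) (z : Fin 3 → ℚ) :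
    pq (st x y s l z) * qa ℚ x y s l = qa ℚ x y s l * pq z + qb ℚ x y s l := by
  have hn : ((nn x y s : ℤ) : ℚ) ≠ 0 := by
    have := nn_pos x y s
    exact_mod_cast this.ne'
  have h1 : pq (st x y s l z) = (((nn x y s : ℤ) : ℚ)⁻¹) •
      (qa ℚ x y s l * pq z * star (qa ℚ x y s l)) + vU ℚ x y l := by
    ext
    · simp [pq, st, qv, qa, vU]
      right
      ring
    · simp [pq, st, qv]
    · simp [pq, st, qv]
    · simp [pq, st, qv]
  have h2 : star (qa ℚ x y s l) * qa ℚ x y s l = (((nn x y s : ℤ) : ℚ)) • (1 : ℍ[ℚ]) := by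
    have h := qa_norm ℚ x y s l
    ext
    · simp
      linear_combination h
    · simp
      ring
    · simp
      ring
    · simp
      ring
  rw [h1, add_mul, smul_mul_assoc, mul_assoc (qa ℚ x y s l * pq z), h2, mul_smul_comm, smul_smul,
    inv_mul_cancel₀ hn, one_smul, mul_one]
  rfl

lemma st_il (x y s : ℤ) (l : Ltr) (z : Fin 3 → ℚ) : st x y s (il l) (st x y s l z) = z := by
  have hn : ((nn x y s : ℤ) : ℚ) ≠ 0 := by
    have := nn_pos x y s
    exact_mod_cast this.ne'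
  have hst : qa ℚ x y s (il l) = star (qa ℚ x y s l) := by
    ext
    · simp [qa]
    · simp [qa, sg_il]
    · simp [qa, sg_il]
    · simp [qa, sg_il, sz_il]
  have hv : vU ℚ x y (il l) = - vU ℚ x y l := by
    ext
    · simp [vU]
    · simp [vU, sg_il]
    · simp [vU, sg_il]
    · simp [vU, sg_il, sz_il]
  have h1 : pq (st x y s l z) = (((nn x y s : ℤ) : ℚ)⁻¹) •
      (qa ℚ x y s l * pq z * star (qa ℚ x y s l)) + vU ℚ x y l := by
    ext
    · simp [pq, st, qv, qa, vU]
      right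
      ring
    · simp [pq, st, qv]
    · simp [pq, st, qv]
    · simp [pq, st, qv]
  have h2 : star (qa ℚ x y s l) * qa ℚ x y s l = (((nn x y s : ℤ) : ℚ)) • (1 : ℍ[ℚ]) := by
    have h := qa_norm ℚ x y s l
    ext
    · simp
      linear_combination h
    · simp
      ring
    · simp
      ring
    · simp
      ring
  have h3 : star (qa ℚ x y s l) * vU ℚ x y l * qa ℚ x y s l =
      (((nn x y s : ℤ) : ℚ)) • vU ℚ x y l := by
    have h4 : vU ℚ x y l * qa ℚ x y s l = qa ℚ x y s l * vU ℚ x y l := by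
      ext <;> simp [vU, qa] <;> ring
    rw [mul_assoc, h4, ← mul_assoc, h2, smul_mul_assoc, one_mul]
  have h5 : (((nn x y s : ℤ) : ℚ)⁻¹) • (qa ℚ x y s (il l) * pq (st x y s l z) *
      star (qa ℚ x y s (il l))) + vU ℚ x y (il l) = pq z := by
    rw [hst, star_star, h1, hv, mul_add, add_mul, h3, mul_smul_comm, smul_mul_assoc]
    have h6 : star (qa ℚ x y s l) * (qa ℚ x y s l * pq z * star (qa ℚ x y s l)) * qa ℚ x y s l =
        (star (qa ℚ x y s l) * qa ℚ x y s l) * pq z * (star (qa ℚ x y s l) * qa ℚ x y s l) := by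
      simp only [mul_assoc]
    rw [h6, h2, smul_mul_assoc, one_mul, mul_smul_comm, mul_one, smul_smul, smul_smul,
      inv_mul_cancel₀ hn, one_mul, smul_add, smul_smul, smul_smul, inv_mul_cancel₀ hn, one_smul,
      one_smul, add_neg_cancel_right]
  unfold st at h5 ⊢
  rw [h5]
  funext i
  fin_cases i <;> simp [qv, pq]

lemma il_il (l : Ltr) : il (il l) = l := by
  unfold il
  simp

lemma st_dist (x y s : ℤ) (l : Ltr) (z w : Fin 3 → ℚ) :
    dist3 (st x y s l z) (st x y s l w) = dist3 z w := by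
  have hn : ((nn x y s : ℤ) : ℚ) ≠ 0 := by
    have := nn_pos x y s
    exact_mod_cast this.ne'
  have key : ∀ d : Fin 3 → ℚ, ∑ i, (qv ((((nn x y s : ℤ) : ℚ)⁻¹) •
      (qa ℚ x y s l * pq d * star (qa ℚ x y s l))) i) ^ 2 = ∑ i, (d i) ^ 2 := by
    intro d
    have h := qa_norm ℚ x y s l
    set a := qa ℚ x y s l with ha
    rw [Fin.sum_univ_three, Fin.sum_univ_three]
    have e : ∀ q : ℍ[ℚ], ((((nn x y s : ℤ) : ℚ)⁻¹) • q).imI ^ 2 +
        ((((nn x y s : ℤ) : ℚ)⁻¹) • q).imJ ^ 2 + ((((nn x y s : ℤ) : ℚ)⁻¹) • q).imK ^ 2 =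
        (((nn x y s : ℤ) : ℚ)⁻¹) ^ 2 * (q.imI ^ 2 + q.imJ ^ 2 + q.imK ^ 2) := by
      intro q
      simp
      ring
    have e2 : (a * pq d * star a).imI ^ 2 + (a * pq d * star a).imJ ^ 2 +
        (a * pq d * star a).imK ^ 2 =
        (a.re ^ 2 + a.imI ^ 2 + a.imJ ^ 2 + a.imK ^ 2) ^ 2 * (d 0 ^ 2 + d 1 ^ 2 + d 2 ^ 2) := by
      simp [pq]
      ring
    have e3 := e (a * pq d * star a)
    rw [e2, h] at e3
    have e4 : (((nn x y s : ℤ) : ℚ)⁻¹) ^ 2 * (((nn x y s : ℤ) : ℚ) ^ 2 *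
        (d 0 ^ 2 + d 1 ^ 2 + d 2 ^ 2)) = d 0 ^ 2 + d 1 ^ 2 + d 2 ^ 2 := by
      field_simp
    rw [e4] at e3
    exact e3
  unfold dist3
  congr 1
  have h1 : ∀ i, st x y s l z i - st x y s l w i = qv ((((nn x y s : ℤ) : ℚ)⁻¹) •
      (qa ℚ x y s l * pq (fun i => z i - w i) * star (qa ℚ x y s l))) i := by
    intro i
    fin_cases i <;> simp [st, qv, pq] <;> ring
  have h2 := key (fun i => z i - w i)
  have h3 : ∑ i, (st x y s l z i - st x y s l w i) ^ 2 = ∑ i, (z i - w i) ^ 2 := by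
    rw [← h2]
    exact Finset.sum_congr rfl fun i _ => by rw [h1]
  exact_mod_cast congrArg (fun q : ℚ => (q : ℝ)) h3

/-- The isometry of a generator. -/
def gen (x y s : ℤ) (b : Bool) : Isom3 :=
  ⟨{ toFun := st x y s (b, true)
     invFun := st x y s (b, false)
     left_inv := fun z => st_il x y s (b, true) z
     right_inv := fun z => st_il x y s (b, false) z },
   fun z w => st_dist x y s (b, true) z w⟩

/-- The free group of isometries. -/
def phi (x y s : ℤ) : FreeGroup Bool →* Isom3 := FreeGroup.lift (gen x y s)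

lemma phi_nil (x y s : ℤ) (z : Fin 3 → ℚ) :
    (phi x y s (FreeGroup.mk []) : Equiv.Perm (Fin 3 → ℚ)) z = z := by
  have : (FreeGroup.mk [] : FreeGroup Bool) = 1 := rfl
  rw [this, map_one]
  rfl

lemma phi_cons (x y s : ℤ) (l : Ltr) (L : List Ltr) (z : Fin 3 → ℚ) :
    (phi x y s (FreeGroup.mk (l :: L)) : Equiv.Perm (Fin 3 → ℚ)) z =
      st x y s l ((phi x y s (FreeGroup.mk L) : Equiv.Perm (Fin 3 → ℚ)) z) := by
  obtain ⟨b, c⟩ := l
  unfold phi
  rw [FreeGroup.lift_mk, FreeGroup.lift_mk, List.map_cons, List.prod_cons]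
  cases c
  · rfl
  · rfl

lemma phi_formula (x y s : ℤ) (L : List Ltr) (z : Fin 3 → ℚ) :
    pq ((phi x y s (FreeGroup.mk L) : Equiv.Perm (Fin 3 → ℚ)) z) * wA ℚ x y s L =
      wA ℚ x y s L * pq z + wB ℚ x y s L := by
  induction L with
  | nil => rw [phi_nil, wA, wB, mul_one, one_mul, add_zero]
  | cons l L ih =>
    rw [phi_cons, wA, wB, ← mul_assoc, pq_st, add_mul, mul_assoc, ih, mul_add, mul_assoc,
      add_assoc]

/-- A word with a fixed point has an infinitesimal part without real part. -/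
lemma re_wB_of_fixed (x y s : ℤ) (L : List Ltr) (z : Fin 3 → ℚ)
    (h : (phi x y s (FreeGroup.mk L) : Equiv.Perm (Fin 3 → ℚ)) z = z) :
    (wB ℤ x y s L).re = 0 := by
  have h1 := phi_formula x y s L z
  rw [h] at h1
  have h2 : wB ℚ x y s L = pq z * wA ℚ x y s L - wA ℚ x y s L * pq z := by
    rw [h1, add_sub_cancel_left]
  have h3 : (wB ℚ x y s L).re = 0 := by
    rw [h2]
    simp
    ring
  rw [← cst_wB] at h3
  simp only [cst] at h3
  exact_mod_cast h3

lemma not_trivial {K : ℕ} {x y s : ℤ} (h : Prm K x y s) (L : List Ltr)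
    (hL : FreeGroup.IsCyclicallyReduced L) (hne : L ≠ []) : phi x y s (FreeGroup.mk L) ≠ 1 := by
  intro h1
  have h2 : ∀ z, (phi x y s (FreeGroup.mk L) : Equiv.Perm (Fin 3 → ℚ)) z = z := by
    intro z
    rw [h1]
    rfl
  have h3 : ∀ z, pq z * wA ℚ x y s L = wA ℚ x y s L * pq z + wB ℚ x y s L := by
    intro z
    have := phi_formula x y s L z
    rwa [h2] at this
  have hB : wB ℚ x y s L = 0 := by
    have h4 := h3 0
    have h5 : pq 0 = 0 := by
      ext <;> simp [pq]
    rw [h5, zero_mul, mul_zero, zero_add] at h4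
    exact h4.symm
  have h6 : ∀ z, pq z * wA ℚ x y s L = wA ℚ x y s L * pq z := by
    intro z
    rw [h3, hB, add_zero]
  have hi := h6 ![1, 0, 0]
  have hj := h6 ![0, 1, 0]
  have hi1 := congrArg QuaternionAlgebra.imJ hi
  have hi2 := congrArg QuaternionAlgebra.imK hi
  have hj1 := congrArg QuaternionAlgebra.imK hj
  simp [pq] at hi1 hi2 hj1
  have hc := cst_wA ℚ x y s L
  rw [← hc] at hi1 hi2 hj1
  simp only [cst] at hi1 hi2 hj1
  have a1 : ((wA ℤ x y s L).imK : ℚ) = 0 := by linarith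
  have a2 : ((wA ℤ x y s L).imJ : ℚ) = 0 := by linarith
  have a3 : ((wA ℤ x y s L).imI : ℚ) = 0 := by linarith
  exact h.not_real L hL hne (by exact_mod_cast a3) (by exact_mod_cast a2) (by exact_mod_cast a1)

/-- The image of a word in the abelianization. -/
lemma of_mk (L : List Ltr) : ∃ X Y : ℤ, tt L = X + Y ∧ dd L = X - Y ∧
    Abelianization.of (FreeGroup.mk L) =
      Abelianization.of (FreeGroup.of true) ^ X * Abelianization.of (FreeGroup.of false) ^ Y := by
  induction L with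
  | nil =>
    refine ⟨0, 0, by simp, by simp, ?_⟩
    have : (FreeGroup.mk [] : FreeGroup Bool) = 1 := rfl
    rw [this, map_one, zpow_zero, zpow_zero, mul_one]
  | cons l L ih =>
    obtain ⟨X, Y, h1, h2, h3⟩ := ih
    obtain ⟨b, c⟩ := l
    have h4 : (FreeGroup.mk ((b, c) :: L) : FreeGroup Bool) =
        FreeGroup.mk [(b, c)] * FreeGroup.mk L := by
      rw [FreeGroup.mul_mk, List.singleton_append]
    have h5 : (FreeGroup.mk [(b, c)] : FreeGroup Bool) = FreeGroup.of b ^ sg (b, c) := by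
      cases c
      · have : sg (b, false) = -1 := rfl
        rw [this, zpow_neg, zpow_one]
        rfl
      · have : sg (b, true) = 1 := rfl
        rw [this, zpow_one]
        rfl
    rw [h4, map_mul, h3, h5, map_zpow, tt_cons, dd_cons, h1, h2]
    cases b
    · have hz : sz (false, c) = -1 := rfl
      refine ⟨X, sg (false, c) + Y, by ring, by rw [hz]; ring, ?_⟩
      rw [zpow_add, mul_left_comm]
    · have hz : sz (true, c) = 1 := rfl
      refine ⟨sg (true, c) + X, Y, by ring, by rw [hz]; ring, ?_⟩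
      rw [zpow_add, mul_assoc]

/-- Words whose exponent sums are divisible by `K`. -/
lemma mem_of_sums (K : ℕ) (L : List Ltr) (h1 : (2 * (K : ℤ)) ∣ tt L)
    (h2 : (2 * (K : ℤ)) ∣ dd L) : (FreeGroup.mk L : FreeGroup Bool) ∈
      commutator (FreeGroup Bool) ⊔ Subgroup.closure (Set.range fun h => h ^ K) := by
  obtain ⟨X, Y, h3, h4, h5⟩ := of_mk L
  obtain ⟨a, ha⟩ := h1
  obtain ⟨b, hb⟩ := h2
  rw [h3] at ha
  rw [h4] at hb
  have hX : X = (K : ℤ) * (a + b) := by linarith
  have hY : Y = (K : ℤ) * (a - b) := by linarith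
  set g : FreeGroup Bool := FreeGroup.of true ^ (a + b) * FreeGroup.of false ^ (a - b) with hg
  have h6 : Abelianization.of (FreeGroup.mk L) = Abelianization.of (g ^ K) := by
    rw [h5, map_pow, hg, map_mul, map_zpow, map_zpow, mul_pow, hX, hY, mul_comm (K : ℤ),
      mul_comm (K : ℤ), zpow_mul, zpow_mul, zpow_natCast, zpow_natCast]
  have h7 : (FreeGroup.mk L : FreeGroup Bool) * (g ^ K)⁻¹ ∈ commutator (FreeGroup Bool) := by
    rw [← Abelianization.ker_of, MonoidHom.mem_ker, map_mul, map_inv, h6, mul_inv_cancel]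
  have h8 : (FreeGroup.mk L : FreeGroup Bool) = (FreeGroup.mk L * (g ^ K)⁻¹) * g ^ K := by
    rw [inv_mul_cancel_right]
  rw [h8]
  exact Subgroup.mul_mem_sup h7 (Subgroup.subset_closure ⟨g, rfl⟩)

/-- A subgroup containing the commutator subgroup is normal. -/
lemma normal_of_le {G : Type} [Group G] (H : Subgroup G) (h : commutator G ≤ H) : H.Normal := by
  refine ⟨fun n hn g => ?_⟩
  have h1 : g * n * g⁻¹ = (g * n * g⁻¹ * n⁻¹) * n := by
    rw [inv_mul_cancel_right]
  rw [h1]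
  refine H.mul_mem (h ?_) hn
  rw [commutator_def]
  exact Subgroup.commutator_mem_commutator (Subgroup.mem_top g) (Subgroup.mem_top n)

theorem main (K : ℕ) (hK : 0 < K) : ∃ (φ : FreeGroup Bool →* Isom3) (M : ℕ), K ≤ M ∧
    Function.Injective φ ∧ ∀ w : FreeGroup Bool, w ≠ 1 →
      (∃ z : Fin 3 → ℚ, (φ w : Equiv.Perm (Fin 3 → ℚ)) z = z) →
      w ∈ commutator (FreeGroup Bool) ⊔ Subgroup.closure (Set.range fun h => h ^ K) ∧
      M ∣ (FreeGroup.reduceCyclically w.toWord).length := by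
  obtain ⟨x, y, s, h⟩ := exists_prm K hK
  have hdec : ∀ w : FreeGroup Bool, w ≠ 1 → ∃ (g : FreeGroup Bool),
      w = g * FreeGroup.mk (FreeGroup.reduceCyclically w.toWord) * g⁻¹ ∧
      FreeGroup.IsCyclicallyReduced (FreeGroup.reduceCyclically w.toWord) ∧
      FreeGroup.reduceCyclically w.toWord ≠ [] := by
    intro w hw
    have h1 := FreeGroup.reduceCyclically.conj_conjugator_reduceCyclically w.toWord
    have h2 : w = FreeGroup.mk (FreeGroup.reduceCyclically.conjugator w.toWord) *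
        FreeGroup.mk (FreeGroup.reduceCyclically w.toWord) *
        (FreeGroup.mk (FreeGroup.reduceCyclically.conjugator w.toWord))⁻¹ := by
      rw [FreeGroup.inv_mk, FreeGroup.mul_mk, FreeGroup.mul_mk, h1, FreeGroup.mk_toWord]
    refine ⟨FreeGroup.mk (FreeGroup.reduceCyclically.conjugator w.toWord), h2,
      FreeGroup.reduceCyclically.isCyclicallyReduced FreeGroup.isReduced_toWord, ?_⟩
    intro h3
    apply hw
    have h4 : (FreeGroup.mk [] : FreeGroup Bool) = 1 := rfl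
    rw [h2, h3, h4, mul_one, mul_inv_cancel]
  refine ⟨phi x y s, (nn x y s).natAbs, ?_, ?_, ?_⟩
  · have := h.nn_gt
    omega
  · rw [injective_iff_map_eq_one]
    intro w hw
    by_contra hw1
    obtain ⟨g, hg, h1, h2⟩ := hdec w hw1
    rw [hg, map_mul, map_mul, map_inv, mul_inv_eq_one, mul_eq_left] at hw
    exact not_trivial h _ h1 h2 hw
  · intro w hw hz
    obtain ⟨z, hz⟩ := hz
    obtain ⟨g, hg, h1, h2⟩ := hdec w hw
    set C := FreeGroup.reduceCyclically w.toWord with hC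
    have h3 : (phi x y s (FreeGroup.mk C) : Equiv.Perm (Fin 3 → ℚ))
        ((phi x y s g : Equiv.Perm (Fin 3 → ℚ))⁻¹ z) =
        (phi x y s g : Equiv.Perm (Fin 3 → ℚ))⁻¹ z := by
      rw [hg, map_mul, map_mul, map_inv] at hz
      apply (phi x y s g : Equiv.Perm (Fin 3 → ℚ)).injective
      have h4 : (phi x y s g : Equiv.Perm (Fin 3 → ℚ))
          ((phi x y s g : Equiv.Perm (Fin 3 → ℚ))⁻¹ z) = z :=
        (phi x y s g : Equiv.Perm (Fin 3 → ℚ)).apply_symm_apply z
      rw [h4]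
      exact hz
    have h4 := re_wB_of_fixed x y s C _ h3
    refine ⟨?_, h.length C h1 h2 h4⟩
    obtain ⟨h5, h6⟩ := h.sums C h4
    have h7 := mem_of_sums K C h5 h6
    have h8 : (commutator (FreeGroup Bool) ⊔
        Subgroup.closure (Set.range fun h => h ^ K)).Normal :=
      normal_of_le _ le_sup_left
    rw [hg]
    exact h8.conj_mem _ h7 g

end Pool.Agent.Lib_helper74.Iso
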