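import Pool.Agent.Lib_helper74.Iso.Cong

/-!
# Free groups of isometries of `ℚ³`: choice of the parameters
-/

set_option autoImplicit false

open Quaternion

namespace Pool.Agent.Lib_helper74.Iso

/-- Two positive integers whose sum of squares is `1` modulo `4` and minus a non-residue modulo all
odd prime divisors of `K`. -/
lemma exists_xy (K : ℕ) (hK : 0 < K) : ∃ x y : ℤ, (x ^ 2 + y ^ 2) % 4 = 1 ∧ 0 < x ^ 2 + y ^ 2 ∧
    ∀ p : ℕ, p.Prime → p ≠ 2 → p ∣ K → ¬ IsSquare ((-(x ^ 2 + y ^ 2) : ℤ) : ZMod p) := by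
  have h : ∀ p : ℕ, ∃ a b : ℕ, (p = 2 → a = 1 ∧ b = 0) ∧
      (p.Prime → p ≠ 2 → ¬ IsSquare ((-((a : ℤ) ^ 2 + (b : ℤ) ^ 2) : ℤ) : ZMod p)) := by
    intro p
    by_cases hp : p.Prime ∧ p ≠ 2
    · have : Fact p.Prime := ⟨hp.1⟩
      obtain ⟨n, hn⟩ := FiniteField.exists_nonsquare (F := ZMod p) (by
        rw [ZMod.ringChar_zmod_n]
        exact hp.2)
      obtain ⟨a, b, hab⟩ := ZMod.sq_add_sq p (-n)
      refine ⟨a.val, b.val, fun h => absurd h hp.2, fun _ _ => ?_⟩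
      push_cast
      rw [ZMod.natCast_zmod_val, ZMod.natCast_zmod_val, hab, neg_neg]
      exact hn
    · refine ⟨1, 0, fun _ => ⟨rfl, rfl⟩, fun h1 h2 => absurd ⟨h1, h2⟩ hp⟩
  choose a b hab1 hab2 using h
  set m : ℕ → ℕ := fun p => if p = 2 then 4 else p with hm
  set t : Finset ℕ := insert 2 K.primeFactors with ht
  have hprime : ∀ p ∈ t, p.Prime := by
    intro p hp
    rw [ht, Finset.mem_insert] at hp
    rcases hp with rfl | hp
    · exact Nat.prime_two
    · exact Nat.prime_of_mem_primeFactors hp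
  have hm0 : ∀ p ∈ t, m p ≠ 0 := by
    intro p hp
    rw [hm]
    simp only
    split_ifs
    · norm_num
    · exact (hprime p hp).ne_zero
  have hco : Set.Pairwise (t : Set ℕ) (Function.onFun Nat.Coprime m) := by
    intro p hp q hq hpq
    rw [Finset.mem_coe] at hp hq
    have hcop : Nat.Coprime p q := (Nat.coprime_primes (hprime p hp) (hprime q hq)).2 hpq
    rw [Function.onFun, hm]
    simp only
    split_ifs with h1 h2 h2
    · exact absurd (h1.trans h2.symm) hpq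
    · rw [h1] at hcop
      exact Nat.Coprime.pow_left 2 hcop
    · rw [h2] at hcop
      exact Nat.Coprime.pow_right 2 hcop
    · exact hcop
  obtain ⟨x, hx⟩ := Nat.chineseRemainderOfFinset a m t hm0 hco
  obtain ⟨y, hy⟩ := Nat.chineseRemainderOfFinset b m t hm0 hco
  have h2t : 2 ∈ t := Finset.mem_insert_self _ _
  have hx2 := hx 2 h2t
  have hy2 := hy 2 h2t
  have hm2 : m 2 = 4 := by rw [hm]; simp
  rw [hm2, (hab1 2 rfl).1] at hx2
  rw [hm2, (hab1 2 rfl).2] at hy2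
  have hx4 : x % 4 = 1 := hx2
  have hy4 : y % 4 = 0 := hy2
  refine ⟨x, y, ?_, ?_, ?_⟩
  · have : (x ^ 2 + y ^ 2) % 4 = 1 := by
      rw [Nat.add_mod, Nat.pow_mod, hx4, Nat.pow_mod y, hy4]
    exact_mod_cast this
  · have : 0 < x ^ 2 + y ^ 2 := by
      have : 0 < x := by omega
      positivity
    exact_mod_cast this
  · intro p hp hp2 hpK
    have hpt : p ∈ t := by
      rw [ht]
      exact Finset.mem_insert_of_mem (Nat.mem_primeFactors.2 ⟨hp, hpK, hK.ne'⟩)
    have h1 := hx p hpt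
    have h3 := hy p hpt
    have hmp : m p = p := by rw [hm]; simp [hp2]
    rw [hmp] at h1 h3
    have h4 : (x : ZMod p) = (a p : ZMod p) := (ZMod.natCast_eq_natCast_iff _ _ _).2 h1
    have h5 : (y : ZMod p) = (b p : ZMod p) := (ZMod.natCast_eq_natCast_iff _ _ _).2 h3
    have h6 := hab2 p hp hp2
    push_cast at h6 ⊢
    rw [h4, h5]
    exact h6

/-- Anisotropy of the form `e T² + D²`. -/
lemma aniso (e : ℤ) (he : e % 4 = 1) (m : ℕ) : 0 < m →
    (∀ p : ℕ, p.Prime → p ≠ 2 → p ∣ m → ¬ IsSquare ((-e : ℤ) : ZMod p)) →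
    ∀ T D : ℤ, (m : ℤ) ^ 2 ∣ e * T ^ 2 + D ^ 2 → (m : ℤ) ∣ T ∧ (m : ℤ) ∣ D := by
  induction m using Nat.strong_induction_on with
  | _ m ih =>
    intro hm hp T D hdvd
    by_cases h1 : m = 1
    · subst h1
      simp
    have hpr := Nat.minFac_prime h1
    obtain ⟨k, hk⟩ := Nat.minFac_dvd m
    set p := m.minFac with hpdef
    have hk0 : 0 < k := by
      rcases Nat.eq_zero_or_pos k with h | h
      · rw [h, mul_zero] at hk
        omega
      · exact h
    have hkm : k < m := by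
      rw [hk]
      have := hpr.two_le
      nlinarith
    have hp2 : (p : ℤ) ^ 2 ∣ e * T ^ 2 + D ^ 2 := by
      refine dvd_trans ?_ hdvd
      rw [hk]
      push_cast
      rw [mul_pow]
      exact dvd_mul_right _ _
    have hpTD : (p : ℤ) ∣ T ∧ (p : ℤ) ∣ D := by
      by_cases h2 : p = 2
      · rw [h2] at hp2 ⊢
        have h3 : ((e * T ^ 2 + D ^ 2 : ℤ) : ZMod 4) = 0 :=
          (ZMod.intCast_zmod_eq_zero_iff_dvd _ 4).2 (by
            have h4 : ((2 : ℕ) : ℤ) ^ 2 = ((4 : ℕ) : ℤ) := by norm_num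
            rwa [h4] at hp2)
        have h4 : ((e : ℤ) : ZMod 4) = 1 := by
          have h5 : ((e - 1 : ℤ) : ZMod 4) = 0 :=
            (ZMod.intCast_zmod_eq_zero_iff_dvd _ 4).2 (by push_cast; omega)
          push_cast at h5
          exact sub_eq_zero.1 h5
        push_cast at h3
        rw [h4, one_mul] at h3
        have h5 : ∀ t d : ZMod 4, t ^ 2 + d ^ 2 = 0 → (t = 0 ∨ t = 2) ∧ (d = 0 ∨ d = 2) := by
          decide
        have h6 : ∀ z : ℤ, ((z : ZMod 4) = 0 ∨ (z : ZMod 4) = 2) → ((2 : ℕ) : ℤ) ∣ z := by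
          intro z hz
          rcases hz with hz | hz
          · have h7 := (ZMod.intCast_zmod_eq_zero_iff_dvd z 4).1 hz
            push_cast at h7 ⊢
            omega
          · have h7 : ((z - 2 : ℤ) : ZMod 4) = 0 := by
              push_cast
              rw [hz, sub_self]
            have h8 := (ZMod.intCast_zmod_eq_zero_iff_dvd (z - 2) 4).1 h7
            push_cast at h8 ⊢
            omega
        obtain ⟨h7, h8⟩ := h5 _ _ h3
        exact ⟨h6 T h7, h6 D h8⟩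
      · have : Fact p.Prime := ⟨hpr⟩
        have hns := hp p hpr h2 (Nat.minFac_dvd m)
        have h3 : ((e * T ^ 2 + D ^ 2 : ℤ) : ZMod p) = 0 :=
          (ZMod.intCast_zmod_eq_zero_iff_dvd _ p).2
            (dvd_trans (dvd_pow_self _ two_ne_zero) hp2)
        push_cast at h3 hns
        have hT : (T : ZMod p) = 0 := by
          by_contra hT
          apply hns
          refine ⟨(D : ZMod p) / (T : ZMod p), ?_⟩
          field_simp
          linear_combination -h3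
        rw [hT] at h3
        have hD : (D : ZMod p) = 0 := by
          have h4 : (D : ZMod p) ^ 2 = 0 := by linear_combination h3
          exact pow_eq_zero_iff two_ne_zero |>.1 h4
        exact ⟨(ZMod.intCast_zmod_eq_zero_iff_dvd _ p).1 hT,
          (ZMod.intCast_zmod_eq_zero_iff_dvd _ p).1 hD⟩
    obtain ⟨⟨T', hT'⟩, ⟨D', hD'⟩⟩ := hpTD
    have hp0 : (p : ℤ) ^ 2 ≠ 0 := by
      have := hpr.pos
      positivity
    have h3 : (k : ℤ) ^ 2 ∣ e * T' ^ 2 + D' ^ 2 := by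
      have h4 : (p : ℤ) ^ 2 * (k : ℤ) ^ 2 ∣ (p : ℤ) ^ 2 * (e * T' ^ 2 + D' ^ 2) := by
        have h5 : (p : ℤ) ^ 2 * (e * T' ^ 2 + D' ^ 2) = e * T ^ 2 + D ^ 2 := by
          rw [hT', hD']
          ring
        rw [h5]
        have h6 : (p : ℤ) ^ 2 * (k : ℤ) ^ 2 = (m : ℤ) ^ 2 := by
          rw [hk]
          push_cast
          ring
        rw [h6]
        exact hdvd
      exact (mul_dvd_mul_iff_left hp0).1 h4
    have hkd : ∀ q : ℕ, q.Prime → q ≠ 2 → q ∣ k → ¬ IsSquare ((-e : ℤ) : ZMod q) :=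
      fun q hq hq2 hqk => hp q hq hq2 (by rw [hk]; exact dvd_mul_of_dvd_right hqk _)
    obtain ⟨h4, h5⟩ := ih k hkm hk0 hkd T' D' h3
    have h6 : (m : ℤ) = p * k := by
      rw [hk]
      push_cast
      ring
    rw [h6, hT', hD']
    exact ⟨mul_dvd_mul_left _ h4, mul_dvd_mul_left _ h5⟩

/-- The parameters. -/
structure Prm (K : ℕ) (x y s : ℤ) : Prop where
  Kpos : 0 < K
  e4 : (x ^ 2 + y ^ 2) % 4 = 1
  epos : 0 < x ^ 2 + y ^ 2
  ns : ∀ p : ℕ, p.Prime → p ≠ 2 → p ∣ K → ¬ IsSquare ((-(x ^ 2 + y ^ 2) : ℤ) : ZMod p)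
  s_eq : s = 4 * (K : ℤ) ^ 2 * (x ^ 2 + y ^ 2)

lemma exists_prm (K : ℕ) (hK : 0 < K) : ∃ x y s : ℤ, Prm K x y s := by
  obtain ⟨x, y, h1, h2, h3⟩ := exists_xy K hK
  exact ⟨x, y, _, hK, h1, h2, h3, rfl⟩

variable {K : ℕ} {x y s : ℤ}

lemma Prm.s_pos (h : Prm K x y s) : 0 < s := by
  have h1 := h.Kpos
  have h2 := h.epos
  rw [h.s_eq]
  positivity

lemma Prm.nn_gt (h : Prm K x y s) : (K : ℤ) < nn x y s := by
  have h1 : (1 : ℤ) ≤ (K : ℤ) := by exact_mod_cast h.Kpos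
  have h2 : (1 : ℤ) ≤ x ^ 2 + y ^ 2 := h.epos
  have h3 := h.s_pos
  have h4 : (K : ℤ) ≤ s := by
    rw [h.s_eq]
    nlinarith [mul_pos (show (0 : ℤ) < K by linarith) (show (0 : ℤ) < K by linarith)]
  unfold nn
  nlinarith [mul_pos h3 h3]

/-- Facts about a prime divisor of the norm. -/
lemma Prm.prime (h : Prm K x y s) (p : ℕ) [Fact p.Prime] (hp : (p : ℤ) ∣ nn x y s) :
    (2 : ZMod p) ≠ 0 ∧ ((x ^ 2 + y ^ 2 : ℤ) : ZMod p) ≠ 0 ∧ ((nn x y s : ℤ) : ZMod p) = 0 := by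
  have hn : ((nn x y s : ℤ) : ZMod p) = 0 := (ZMod.intCast_zmod_eq_zero_iff_dvd _ p).2 hp
  have hn' := hn
  have hs := h.s_eq
  have hs' : (s : ZMod p) = 4 * (K : ZMod p) ^ 2 * ((x ^ 2 + y ^ 2 : ℤ) : ZMod p) := by
    rw [hs]
    push_cast
    ring
  have hnn : ((nn x y s : ℤ) : ZMod p) = 1 + (s : ZMod p) ^ 2 *
      (((x ^ 2 + y ^ 2 : ℤ) : ZMod p) + 1) := by
    unfold nn
    push_cast
    ring
  rw [hnn] at hn'
  refine ⟨?_, ?_, hn⟩
  · intro h2
    have h4 : (s : ZMod p) = 0 := by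
      rw [hs']
      linear_combination (2 * (K : ZMod p) ^ 2 * ((x ^ 2 + y ^ 2 : ℤ) : ZMod p)) * h2
    rw [h4] at hn'
    simp at hn'
  · intro he
    have h4 : (s : ZMod p) = 0 := by
      rw [hs', he, mul_zero]
    rw [h4] at hn'
    simp at hn'

/-- The real part of the quaternion of a cyclically reduced word is prime to the norm. -/
lemma Prm.coprime (h : Prm K x y s) (L : List Ltr) (hL : FreeGroup.IsCyclicallyReduced L)
    (hne : L ≠ []) (p : ℕ) (hp : p.Prime) (hpn : (p : ℤ) ∣ nn x y s) :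
    ¬ (p : ℤ) ∣ (wA ℤ x y s L).re := by
  have : Fact p.Prime := ⟨hp⟩
  obtain ⟨h2, he, hn⟩ := h.prime p hpn
  have h3 := re_wA_ne_zero (F := ZMod p) x y s h2 he hn L hL hne
  intro hd
  apply h3
  rw [← cst_wA]
  exact (ZMod.intCast_zmod_eq_zero_iff_dvd _ p).2 hd

/-- The length of a cyclically reduced word with a fixed point is divisible by the norm. -/
lemma Prm.length (h : Prm K x y s) (L : List Ltr) (hL : FreeGroup.IsCyclicallyReduced L)
    (hne : L ≠ []) (h0 : (wB ℤ x y s L).re = 0) : (nn x y s).natAbs ∣ L.length := by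
  obtain ⟨C, hC⟩ := mod_norm x y s L
  have h1 := congrArg QuaternionAlgebra.re hC
  have h2 : (0 : ℤ) = (L.length : ℤ) * (wA ℤ x y s L).re + nn x y s * C.re := by
    have h3 : (s • wB ℤ x y s L).re = s * (wB ℤ x y s L).re := by simp
    have h4 : ((L.length : ℤ) • wA ℤ x y s L + nn x y s • C).re =
        (L.length : ℤ) * (wA ℤ x y s L).re + nn x y s * C.re := by simp
    rw [h3, h4, h0, mul_zero] at h1
    exact h1
  have hdvd : nn x y s ∣ (L.length : ℤ) * (wA ℤ x y s L).re :=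
    ⟨-C.re, by linarith⟩
  have hco : Nat.Coprime (nn x y s).natAbs ((wA ℤ x y s L).re).natAbs := by
    apply Nat.coprime_of_dvd
    intro k hk h3 h4
    exact h.coprime L hL hne k hk (Int.natCast_dvd.2 h3) (Int.natCast_dvd.2 h4)
  have h5 : (nn x y s).natAbs ∣ L.length * ((wA ℤ x y s L).re).natAbs := by
    have h6 := Int.natAbs_dvd_natAbs.2 hdvd
    rwa [Int.natAbs_mul, Int.natAbs_natCast] at h6
  exact hco.dvd_of_dvd_mul_right h5

/-- The exponent sums of a word with a fixed point are divisible by `K`. -/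
lemma Prm.sums (h : Prm K x y s) (L : List Ltr) (h0 : (wB ℤ x y s L).re = 0) :
    (2 * (K : ℤ)) ∣ tt L ∧ (2 * (K : ℤ)) ∣ dd L := by
  obtain ⟨-, -, c, -, -, hr⟩ := mod_s x y s L
  have hs := h.s_pos
  rw [h0] at hr
  have h1 : (x ^ 2 + y ^ 2) * tt L ^ 2 + dd L ^ 2 = s * c := by
    have h2 : s * ((x ^ 2 + y ^ 2) * tt L ^ 2 + dd L ^ 2) = s * (s * c) := by linarith
    exact mul_left_cancel₀ hs.ne' h2
  have h2 : ((2 * K : ℕ) : ℤ) ^ 2 ∣ (x ^ 2 + y ^ 2) * tt L ^ 2 + dd L ^ 2 := by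
    rw [h1, h.s_eq]
    refine ⟨(x ^ 2 + y ^ 2) * c, ?_⟩
    push_cast
    ring
  have h3 := aniso (x ^ 2 + y ^ 2) h.e4 (2 * K) (by have := h.Kpos; omega) (by
    intro p hp hp2 hpK
    apply h.ns p hp hp2
    rcases hp.dvd_mul.1 hpK with h4 | h4
    · exact absurd ((Nat.prime_dvd_prime_iff_eq hp Nat.prime_two).1 h4) hp2
    · exact h4) (tt L) (dd L) h2
  push_cast at h3
  exact h3

/-- The norm of the quaternion of a word. -/
lemma norm_wA (L : List Ltr) : (wA ℤ x y s L).re ^ 2 + (wA ℤ x y s L).imI ^ 2 +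
    (wA ℤ x y s L).imJ ^ 2 + (wA ℤ x y s L).imK ^ 2 = nn x y s ^ L.length := by
  induction L with
  | nil => simp [wA]
  | cons l L ih =>
    have h1 := qa_norm ℤ x y s l
    rw [List.length_cons, pow_succ (nn x y s) L.length, ← ih, wA]
    simp only [Int.cast_id] at h1
    rw [← h1]
    simp
    ring

/-- The quaternion of a cyclically reduced word is not real. -/
lemma Prm.not_real (h : Prm K x y s) (L : List Ltr) (hL : FreeGroup.IsCyclicallyReduced L)
    (hne : L ≠ []) (hI : (wA ℤ x y s L).imI = 0) (hJ : (wA ℤ x y s L).imJ = 0)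
    (hK : (wA ℤ x y s L).imK = 0) : False := by
  have h1 := norm_wA (x := x) (y := y) (s := s) L
  rw [hI, hJ, hK] at h1
  have h2 : (wA ℤ x y s L).re ^ 2 = nn x y s ^ L.length := by linarith
  have hgt := h.nn_gt
  have hKpos : (1 : ℤ) ≤ (K : ℤ) := by exact_mod_cast h.Kpos
  have hne1 : (nn x y s).natAbs ≠ 1 := by omega
  obtain ⟨p, hp, hpd⟩ := Nat.exists_prime_and_dvd hne1
  have hpn : (p : ℤ) ∣ nn x y s := Int.natCast_dvd.2 hpd
  apply h.coprime L hL hne p hp hpn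
  have h3 : (p : ℤ) ∣ (wA ℤ x y s L).re ^ 2 := by
    rw [h2]
    exact dvd_pow hpn (by simpa using hne)
  exact (Nat.prime_iff_prime_int.1 hp).dvd_of_dvd_pow h3

end Pool.Agent.Lib_helper74.Iso
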