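import Pool.Agent.Lib_helper74.Iso.Quat

/-!
# Free groups of isometries of `ℚ³`: congruences for the words with a fixed point
-/

set_option autoImplicit false

open Quaternion

namespace Pool.Agent.Lib_helper74.Iso

/-- The sum of the exponents of a word. -/
def tt (L : List Ltr) : ℤ := (L.map sg).sum

/-- The difference of the exponent sums of the two generators. -/
def dd (L : List Ltr) : ℤ := (L.map fun l => sg l * sz l).sum

@[simp] lemma tt_nil : tt [] = 0 := rfl
@[simp] lemma dd_nil : dd [] = 0 := rfl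
@[simp] lemma tt_cons (l : Ltr) (L : List Ltr) : tt (l :: L) = sg l + tt L := by
  simp [tt]
@[simp] lemma dd_cons (l : Ltr) (L : List Ltr) : dd (l :: L) = sg l * sz l + dd L := by
  simp [dd]

variable (x y s : ℤ)

/-- Modulo the norm, the infinitesimal part of a word is its length times its quaternion. -/
lemma mod_norm (L : List Ltr) : ∃ C : ℍ[ℤ],
    s • wB ℤ x y s L = (L.length : ℤ) • wA ℤ x y s L + nn x y s • C := by
  induction L with
  | nil => exact ⟨0, by simp [wB]⟩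
  | cons l L ih =>
    obtain ⟨C, hC⟩ := ih
    have hb : s • qb ℤ x y s l = qa ℤ x y s l - nn x y s • (1 : ℍ[ℤ]) := by
      have h1 := sg_sq l
      have h2 := sz_sq l
      have h3 : nn x y s = 1 + s ^ 2 * (x ^ 2 + y ^ 2 + 1) := rfl
      generalize nn x y s = k at h3 ⊢
      unfold qb
      ext
      · simp [vU, qa]
        linear_combination (-(s ^ 2 * (x ^ 2 + y ^ 2 + sz l ^ 2))) * h1 - s ^ 2 * h2 + h3
      · simp [vU, qa]
        left
        ring
      · simp [vU, qa]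
        left
        ring
      · simp [vU, qa]
        left
        ring
    refine ⟨qa ℤ x y s l * C - wA ℤ x y s L, ?_⟩
    rw [wB, wA, smul_add, ← mul_smul_comm, hC, ← smul_mul_assoc, hb, mul_add, mul_smul_comm,
      mul_smul_comm, sub_mul, smul_mul_assoc, one_mul, List.length_cons, smul_sub]
    push_cast
    rw [add_smul, one_smul]
    abel

/-- The first order terms of the quaternion and of the infinitesimal part of a word. -/
lemma mod_s (L : List Ltr) : ∃ (C₁ C₂ : ℍ[ℤ]) (c : ℤ),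
    wA ℤ x y s L = ⟨1, s * (x * tt L), s * (y * tt L), s * dd L⟩ + s • s • C₁ ∧
    wB ℤ x y s L = ⟨0, x * tt L, y * tt L, dd L⟩ + s • C₂ ∧
    (wB ℤ x y s L).re = -(s * ((x ^ 2 + y ^ 2) * tt L ^ 2 + dd L ^ 2)) + s ^ 2 * c := by
  induction L with
  | nil =>
    refine ⟨0, 0, 0, ?_, ?_, ?_⟩
    · ext <;> simp [wA]
    · ext <;> simp [wB]
    · simp [wB]
  | cons l L ih =>
    obtain ⟨C₁, C₂, c, hA, hB, hr⟩ := ih
    have h1 := sg_sq l
    have h2 := sz_sq l
    set T := tt L with hT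
    set D := dd L with hD
    set g := sg l with hg
    set z := sz l with hz
    have hreB : (wB ℤ x y s L).re = s * C₂.re := by
      rw [hB]; simp
    have hIB : (wB ℤ x y s L).imI = x * T + s * C₂.imI := by
      rw [hB]; simp
    have hJB : (wB ℤ x y s L).imJ = y * T + s * C₂.imJ := by
      rw [hB]; simp
    have hKB : (wB ℤ x y s L).imK = D + s * C₂.imK := by
      rw [hB]; simp
    have hreA : (wA ℤ x y s L).re = 1 + s ^ 2 * C₁.re := by
      rw [hA]; simp; ring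
    have hIA : (wA ℤ x y s L).imI = s * (x * T) + s ^ 2 * C₁.imI := by
      rw [hA]; simp; ring
    have hJA : (wA ℤ x y s L).imJ = s * (y * T) + s ^ 2 * C₁.imJ := by
      rw [hA]; simp; ring
    have hKA : (wA ℤ x y s L).imK = s * D + s ^ 2 * C₁.imK := by
      rw [hA]; simp; ring
    obtain ⟨e, he⟩ : ∃ e : ℤ, e = x ^ 2 + y ^ 2 + 1 := ⟨_, rfl⟩
    -- the new quaternion
    refine ⟨C₁ + vU ℤ x y l * ⟨0, x * T, y * T, D⟩ + s • (vU ℤ x y l * C₁),
      vU ℤ x y l * (wB ℤ x y s L) + C₂ +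
        vU ℤ x y l * (⟨0, x * T, y * T, D⟩ + s • C₁) -
        e • wA ℤ x y s L,
      c - (g * x * C₂.imI + g * y * C₂.imJ + g * z * C₂.imK) -
        (g * x * C₁.imI + g * y * C₁.imJ + g * z * C₁.imK) - (x ^ 2 + y ^ 2 + 1) * (s * C₁.re),
      ?_, ?_, ?_⟩
    · ext
      · simp [wA, qa, vU, hreA, hIA, hJA, hKA, ← hg, ← hz]
        ring
      · simp [wA, qa, vU, hreA, hIA, hJA, hKA, ← hg, ← hz]
        ring
      · simp [wA, qa, vU, hreA, hIA, hJA, hKA, ← hg, ← hz]
        ring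
      · simp [wA, qa, vU, hreA, hIA, hJA, hKA, ← hg, ← hz]
        ring
    · ext
      · simp [wB, qb, qa, vU, hreA, hIA, hJA, hKA, hreB, hIB, hJB, hKB, ← hg, ← hz]
        linear_combination (-(s + s ^ 3 * C₁.re) * (x ^ 2 + y ^ 2 + z ^ 2)) * h1 -
          (s + s ^ 3 * C₁.re) * h2 + (s + s ^ 3 * C₁.re) * he
      · simp [wB, qb, qa, vU, hreA, hIA, hJA, hKA, hreB, hIB, hJB, hKB, ← hg, ← hz]
        linear_combination (-(s ^ 2 * x * T + s ^ 3 * C₁.imI) * (x ^ 2 + y ^ 2 + z ^ 2)) * h1 -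
          (s ^ 2 * x * T + s ^ 3 * C₁.imI) * h2 + (s ^ 2 * x * T + s ^ 3 * C₁.imI) * he
      · simp [wB, qb, qa, vU, hreA, hIA, hJA, hKA, hreB, hIB, hJB, hKB, ← hg, ← hz]
        linear_combination (-(s ^ 2 * y * T + s ^ 3 * C₁.imJ) * (x ^ 2 + y ^ 2 + z ^ 2)) * h1 -
          (s ^ 2 * y * T + s ^ 3 * C₁.imJ) * h2 + (s ^ 2 * y * T + s ^ 3 * C₁.imJ) * he
      · simp [wB, qb, qa, vU, hreA, hIA, hJA, hKA, hreB, hIB, hJB, hKB, ← hg, ← hz]
        linear_combination (-(s ^ 2 * D + s ^ 3 * C₁.imK) * (x ^ 2 + y ^ 2 + z ^ 2)) * h1 -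
          (s ^ 2 * D + s ^ 3 * C₁.imK) * h2 + (s ^ 2 * D + s ^ 3 * C₁.imK) * he
    · have h3 : (wB ℤ x y s (l :: L)).re = (wB ℤ x y s L).re -
          s * (g * x * (wB ℤ x y s L).imI + g * y * (wB ℤ x y s L).imJ +
            g * z * (wB ℤ x y s L).imK) - s * (x ^ 2 + y ^ 2 + 1) * (wA ℤ x y s L).re -
          (g * x * (wA ℤ x y s L).imI + g * y * (wA ℤ x y s L).imJ +
            g * z * (wA ℤ x y s L).imK) := by
        simp [wB, qb, qa, vU, ← hg, ← hz]
        linear_combination (-(s * (wA ℤ x y s L).re * (x ^ 2 + y ^ 2 + z ^ 2))) * h1 -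
          (s * (wA ℤ x y s L).re) * h2
      rw [h3, hr, hIB, hJB, hKB, hreA, hIA, hJA, hKA, tt_cons, dd_cons, ← hT, ← hD, ← hg, ← hz]
      linear_combination (s * (x ^ 2 + y ^ 2 + z ^ 2)) * h1 + s * h2

end Pool.Agent.Lib_helper74.Iso
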