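import Mathlib

/-!
# Free groups of isometries of `ℚ³`: the quaternion computations
-/

set_option autoImplicit false

open Quaternion

namespace Pool.Agent.Lib_helper74.Iso

/-- The letters: the generators `true`, `false` and their inverses. -/
abbrev Ltr : Type := Bool × Bool

/-- The sign of a letter. -/
def sg (l : Ltr) : ℤ := if l.2 then 1 else -1

/-- The sign of the last coordinate of the vector of a letter. -/
def sz (l : Ltr) : ℤ := if l.1 then 1 else -1

section Defs

variable (R : Type) [CommRing R] (x y s : ℤ)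

/-- The vector of a letter. -/
def vU (l : Ltr) : ℍ[R] := ⟨0, ((sg l * x : ℤ) : R), ((sg l * y : ℤ) : R), ((sg l * sz l : ℤ) : R)⟩

/-- The quaternion of a letter. -/
def qa (l : Ltr) : ℍ[R] :=
  ⟨1, ((s * (sg l * x) : ℤ) : R), ((s * (sg l * y) : ℤ) : R), ((s * (sg l * sz l) : ℤ) : R)⟩

/-- The infinitesimal part of a letter. -/
def qb (l : Ltr) : ℍ[R] := vU R x y l * qa R x y s l

/-- The quaternion of a word. -/
def wA : List Ltr → ℍ[R]
  | [] => 1
  | l :: L => qa R x y s l * wA L

/-- The infinitesimal part of a word. -/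
def wB : List Ltr → ℍ[R]
  | [] => 0
  | l :: L => qa R x y s l * wB L + qb R x y s l * wA R x y s L

end Defs

/-- The norm of the quaternions of the letters. -/
def nn (x y s : ℤ) : ℤ := 1 + s ^ 2 * (x ^ 2 + y ^ 2 + 1)

lemma sg_sq (l : Ltr) : sg l * sg l = 1 := by
  unfold sg; split_ifs <;> norm_num

lemma sz_sq (l : Ltr) : sz l * sz l = 1 := by
  unfold sz; split_ifs <;> norm_num

/-! ### change of rings -/

/-- The image of an integral quaternion. -/
def cst (R : Type) [CommRing R] (q : ℍ[ℤ]) : ℍ[R] :=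
  ⟨(q.re : R), (q.imI : R), (q.imJ : R), (q.imK : R)⟩

lemma cst_mul (R : Type) [CommRing R] (p q : ℍ[ℤ]) : cst R (p * q) = cst R p * cst R q := by
  ext <;> simp [cst]

lemma cst_add (R : Type) [CommRing R] (p q : ℍ[ℤ]) : cst R (p + q) = cst R p + cst R q := by
  ext <;> simp [cst]

lemma cst_one (R : Type) [CommRing R] : cst R 1 = 1 := by
  ext <;> simp [cst]

lemma cst_zero (R : Type) [CommRing R] : cst R 0 = 0 := by
  ext <;> simp [cst]

lemma cst_vU (R : Type) [CommRing R] (x y : ℤ) (l : Ltr) : cst R (vU ℤ x y l) = vU R x y l := by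
  ext <;> simp [cst, vU]

lemma cst_qa (R : Type) [CommRing R] (x y s : ℤ) (l : Ltr) :
    cst R (qa ℤ x y s l) = qa R x y s l := by
  ext <;> simp [cst, qa]

lemma cst_qb (R : Type) [CommRing R] (x y s : ℤ) (l : Ltr) :
    cst R (qb ℤ x y s l) = qb R x y s l := by
  unfold qb
  rw [cst_mul, cst_vU, cst_qa]

lemma cst_wA (R : Type) [CommRing R] (x y s : ℤ) (L : List Ltr) :
    cst R (wA ℤ x y s L) = wA R x y s L := by
  induction L with
  | nil => exact cst_one R
  | cons l L ih => rw [wA, wA, cst_mul, cst_qa, ih]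

lemma cst_wB (R : Type) [CommRing R] (x y s : ℤ) (L : List Ltr) :
    cst R (wB ℤ x y s L) = wB R x y s L := by
  induction L with
  | nil => exact cst_zero R
  | cons l L ih => rw [wB, wB, cst_add, cst_mul, cst_mul, cst_qa, cst_qb, ih, cst_wA]

/-! ### the products modulo a prime divisor of the norm -/

section Field

variable {F : Type} [Field F]

lemma sandwich {R : Type} [CommRing R] (A Z : ℍ[R])
    (h : A.re ^ 2 + A.imI ^ 2 + A.imJ ^ 2 + A.imK ^ 2 = 0) :
    A * Z * A = (2 * (A * Z).re) • A := by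
  ext
  · simp
    linear_combination (-Z.re) * h
  · simp
    linear_combination (Z.imI) * h
  · simp
    linear_combination (Z.imJ) * h
  · simp
    linear_combination (Z.imK) * h

lemma qa_norm (R : Type) [CommRing R] (x y s : ℤ) (l : Ltr) :
    (qa R x y s l).re ^ 2 + (qa R x y s l).imI ^ 2 + (qa R x y s l).imJ ^ 2 +
      (qa R x y s l).imK ^ 2 = (nn x y s : R) := by
  have h1 := sg_sq l
  have h2 := sz_sq l
  have h : 1 + (s * (sg l * x)) ^ 2 + (s * (sg l * y)) ^ 2 + (s * (sg l * sz l)) ^ 2 =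
      nn x y s := by
    unfold nn
    linear_combination (s ^ 2 * (x ^ 2 + y ^ 2 + sz l ^ 2)) * h1 + s ^ 2 * h2
  rw [← h]
  simp only [qa]
  push_cast
  ring

lemma re_pair {F : Type} [Field F] (x y s : ℤ) (h2 : (2 : F) ≠ 0)
    (he : ((x ^ 2 + y ^ 2 : ℤ) : F) ≠ 0) (hn : ((nn x y s : ℤ) : F) = 0) (l l' : Ltr)
    (hl : l.1 = l'.1 → l.2 = l'.2) : 2 * (qa F x y s l' * qa F x y s l).re ≠ 0 := by
  have hd : ((s : F) ^ 2) * ((x : F) ^ 2 + (y : F) ^ 2 + 1) = -1 := by
    have : ((nn x y s : ℤ) : F) = 1 + (s : F) ^ 2 * ((x : F) ^ 2 + (y : F) ^ 2 + 1) := by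
      unfold nn
      push_cast
      ring
    rw [this] at hn
    linear_combination hn
  have hre : (qa F x y s l' * qa F x y s l).re =
      1 - (s : F) ^ 2 * ((sg l' * sg l : ℤ) : F) *
        ((x : F) ^ 2 + (y : F) ^ 2 + ((sz l' * sz l : ℤ) : F)) := by
    simp [qa]
    ring
  refine mul_ne_zero h2 ?_
  rw [hre]
  push_cast at he
  intro hz
  have hd0 : ((x : F) ^ 2 + (y : F) ^ 2 + 1) ≠ 0 := by
    intro h
    rw [h, mul_zero] at hd
    exact one_ne_zero (neg_eq_zero.1 hd.symm)
  by_cases h1 : l.1 = l'.1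
  · have h3 := hl h1
    have hg : sg l' * sg l = 1 := by
      unfold sg
      rw [h3]
      split_ifs <;> norm_num
    have hz' : sz l' * sz l = 1 := by
      unfold sz
      rw [h1]
      split_ifs <;> norm_num
    rw [hg, hz'] at hz
    push_cast at hz
    apply h2
    linear_combination hz + hd
  · have hz' : sz l' * sz l = -1 := by
      unfold sz
      obtain ⟨l1, l2⟩ := l
      obtain ⟨l1', l2'⟩ := l'
      cases l1 <;> cases l1' <;> simp_all
    have hg : sg l' * sg l = 1 ∨ sg l' * sg l = -1 := by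
      unfold sg
      split_ifs <;> norm_num
    rw [hz'] at hz
    rcases hg with hg | hg <;> rw [hg] at hz <;> push_cast at hz
    · apply mul_ne_zero h2 he
      linear_combination ((x : F) ^ 2 + (y : F) ^ 2 + 1) * hz +
        ((x : F) ^ 2 + (y : F) ^ 2 - 1) * hd
    · apply h2
      linear_combination ((x : F) ^ 2 + (y : F) ^ 2 + 1) * hz -
        ((x : F) ^ 2 + (y : F) ^ 2 - 1) * hd

lemma wA_append (R : Type) [CommRing R] (x y s : ℤ) (L L' : List Ltr) :
    wA R x y s (L ++ L') = wA R x y s L * wA R x y s L' := by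
  induction L with
  | nil => simp [wA]
  | cons l L ih => rw [List.cons_append, wA, wA, ih, mul_assoc]

/-- The quaternion of a reduced word does not vanish modulo a prime divisor of the norm. -/
lemma wA_ne_zero {F : Type} [Field F] (x y s : ℤ) (h2 : (2 : F) ≠ 0)
    (he : ((x ^ 2 + y ^ 2 : ℤ) : F) ≠ 0) (hn : ((nn x y s : ℤ) : F) = 0) :
    ∀ (L : List Ltr), L.IsChain (fun a b => a.1 = b.1 → a.2 = b.2) → wA F x y s L ≠ 0
  | [], _ => by
    rw [wA]
    exact one_ne_zero
  | [l], _ => by
    rw [wA, wA, mul_one]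
    intro h
    have := congrArg QuaternionAlgebra.re h
    simp [qa] at this
  | l :: l' :: L, hc => by
    have hc' := List.isChain_cons_cons.1 hc
    have ih := wA_ne_zero x y s h2 he hn (l' :: L) hc'.2
    intro h
    apply ih
    have h3 : qa F x y s l' * wA F x y s (l :: l' :: L) =
        (2 * (qa F x y s l' * qa F x y s l).re) • wA F x y s (l' :: L) := by
      rw [wA, wA, ← mul_assoc, ← mul_assoc, sandwich, smul_mul_assoc]
      rw [qa_norm]
      exact hn
    rw [h, mul_zero] at h3
    rcases smul_eq_zero.1 h3.symm with h4 | h4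
    · exact absurd h4 (re_pair x y s h2 he hn l l' hc'.1)
    · exact h4

/-- The real part of the quaternion of a cyclically reduced word does not vanish modulo a prime
divisor of the norm. -/
lemma re_wA_ne_zero {F : Type} [Field F] (x y s : ℤ) (h2 : (2 : F) ≠ 0)
    (he : ((x ^ 2 + y ^ 2 : ℤ) : F) ≠ 0) (hn : ((nn x y s : ℤ) : F) = 0) (L : List Ltr)
    (hL : FreeGroup.IsCyclicallyReduced L) (hne : L ≠ []) : (wA F x y s L).re ≠ 0 := by
  obtain ⟨l, L', rfl⟩ := List.exists_cons_of_ne_nil hne
  have hchain : ((l :: L') ++ [l]).IsChain (fun a b : Ltr => a.1 = b.1 → a.2 = b.2) := by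
    rw [List.isChain_append]
    refine ⟨hL.1, List.IsChain.singleton l, ?_⟩
    intro a ha b hb
    apply hL.2 a ha b
    simpa using hb
  have h := wA_ne_zero x y s h2 he hn _ hchain
  intro h0
  apply h
  have h1 : wA F x y s ((l :: L') ++ [l]) = (2 * (wA F x y s (l :: L')).re) • qa F x y s l := by
    rw [wA_append, wA, wA, wA, mul_one, sandwich]
    rw [qa_norm]
    exact hn
  rw [h1, h0, mul_zero, zero_smul]

end Field

end Pool.Agent.Lib_helper74.Iso
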